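import Pool.Agent.TH329.FD.Step2
import Pool.Agent.H744R2.Falc.FrostH
import Pool.Agent.H744R2.Falc.FrostR

set_option autoImplicit false

/-! From Hausdorff dimension to Frostman measures, squares, and the pinned theorem. -/

namespace Pool.Agent.TH329.FD

open MeasureTheory Set Metric Filter Topology
open Pool.Agent.H744R2.Falc
open scoped ENNReal NNReal

/-- Frostman's lemma for compact subsets of the line -/
theorem fro_real (D : Set ℝ) (hD : IsCompact D) (s : ℝ) (hs : 0 ≤ s)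
    (h : ENNReal.ofReal s < dimH D) : Fro D s := by
  set ψ : ℝ → EuclideanSpace ℝ (Fin 1) := fun r => WithLp.toLp 2 (fun _ => r) with hψ
  set φ : EuclideanSpace ℝ (Fin 1) → ℝ := fun x => x 0 with hφ
  have hdist : ∀ x y : EuclideanSpace ℝ (Fin 1), dist x y = dist (φ x) (φ y) := by
    intro x y
    rw [EuclideanSpace.dist_eq]
    simp [hφ]
  have hψiso : Isometry ψ := Isometry.of_dist_eq fun x y => by rw [hdist]
  have hK : IsCompact (ψ '' D) := hD.image hψiso.continuous
  have hdim : dimH (ψ '' D) = dimH D := hψiso.dimH_image D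
  obtain ⟨μ, hμp, hμK, C, hC, hμ⟩ := frostman_dimH 1 (ψ '' D) hK s hs (by rw [hdim]; exact h)
  have hφm : Measurable φ := by rw [hφ]; fun_prop
  refine ⟨μ.map φ, Measure.isProbabilityMeasure_map hφm.aemeasurable, ?_, C, hC, ?_⟩
  · rw [Measure.map_apply hφm hD.isClosed.measurableSet.compl]
    refine measure_mono_null ?_ hμK
    intro x hx hx2
    obtain ⟨r, hr, rfl⟩ := hx2
    exact hx hr
  · intro x r hr
    rw [Measure.map_apply hφm measurableSet_closedBall]
    refine (measure_mono ?_).trans (hμ (ψ x) r hr)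
    intro z hz
    rw [mem_closedBall, hdist]
    exact hz

theorem fro_max {n : ℕ} (K : Set (EuclideanSpace ℝ (Fin n))) (hK : IsCompact K)
    (hKn : K.Nonempty) (s : ℝ) (hs : 0 ≤ s) (h : s = 0 ∨ ENNReal.ofReal s < dimH K) : Fro K s := by
  rcases h with rfl | h
  · exact fro_zero K hK.measurableSet hKn
  · exact frostman_dimH n K hK s hs h

theorem fro_max_real (K : Set ℝ) (hK : IsCompact K)
    (hKn : K.Nonempty) (s : ℝ) (hs : 0 ≤ s) (h : s = 0 ∨ ENNReal.ofReal s < dimH K) : Fro K s := by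
  rcases h with rfl | h
  · exact fro_zero K hK.measurableSet hKn
  · exact fro_real K hK s hs h

/-- a real number slightly below an extended one -/
theorem exists_below (a : ℝ≥0∞) (ha : a ≠ ⊤) (ε : ℝ) (hε : 0 < ε) :
    ∃ s : ℝ, 0 ≤ s ∧ (s = 0 ∨ ENNReal.ofReal s < a) ∧ a.toReal - ε ≤ s ∧ s ≤ a.toReal := by
  by_cases h : 0 < a.toReal - ε
  · refine ⟨a.toReal - ε, h.le, Or.inr ?_, le_rfl, by linarith⟩
    exact (ENNReal.ofReal_lt_iff_lt_toReal h.le ha).2 (by linarith)
  · exact ⟨0, le_rfl, Or.inl rfl, by linarith, ENNReal.toReal_nonneg⟩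

theorem dimH_real_le (D : Set ℝ) : dimH D ≤ 1 := by
  refine (dimH_mono (subset_univ D)).trans ?_
  rw [Real.dimH_univ]

theorem dimH_euc_le {n : ℕ} (K : Set (EuclideanSpace ℝ (Fin n))) : dimH K ≤ n := by
  refine (dimH_mono (subset_univ K)).trans ?_
  rw [Real.dimH_univ_eq_finrank]
  simp

/-- the pinned theorem with a general set of shifts -/
theorem pinned_shift (n : ℕ) (D : Set ℝ) (F Y : Set (EuclideanSpace ℝ (Fin n)))
    (hD : IsCompact D) (hDn : D.Nonempty) (hF : IsCompact F) (hY : IsCompact Y)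
    (h : (n : ℝ≥0∞) + 1 < dimH D + dimH F + dimH Y) :
    ∃ y ∈ Y, 0 < volume (shiftPin D F y) := by
  have hD1 := dimH_real_le D
  have hF1 := dimH_euc_le F
  have hY1 := dimH_euc_le Y
  have hDt : dimH D ≠ ⊤ := ne_top_of_le_ne_top ENNReal.one_ne_top hD1
  have hFt : dimH F ≠ ⊤ := ne_top_of_le_ne_top (ENNReal.natCast_ne_top n) hF1
  have hYt : dimH Y ≠ ⊤ := ne_top_of_le_ne_top (ENNReal.natCast_ne_top n) hY1
  have hFn : F.Nonempty := by
    by_contra hne
    rw [not_nonempty_iff_eq_empty] at hne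
    rw [hne, dimH_empty, add_zero] at h
    have : dimH D + dimH Y ≤ 1 + (n : ℝ≥0∞) := add_le_add hD1 hY1
    rw [add_comm (1 : ℝ≥0∞)] at this
    exact absurd h (not_lt.2 this)
  have hYn : Y.Nonempty := by
    by_contra hne
    rw [not_nonempty_iff_eq_empty] at hne
    rw [hne, dimH_empty, add_zero] at h
    have : dimH D + dimH F ≤ 1 + (n : ℝ≥0∞) := add_le_add hD1 hF1
    rw [add_comm (1 : ℝ≥0∞)] at this
    exact absurd h (not_lt.2 this)
  have hr : (n : ℝ) + 1 < (dimH D).toReal + (dimH F).toReal + (dimH Y).toReal := by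
    have h1 := (ENNReal.toReal_lt_toReal (by simp) (by simp [hDt, hFt, hYt])).2 h
    rw [ENNReal.toReal_add (by simp [hDt, hFt]) hYt, ENNReal.toReal_add hDt hFt,
      ENNReal.toReal_add (by simp) (by simp)] at h1
    simpa using h1
  set ε : ℝ := ((dimH D).toReal + (dimH F).toReal + (dimH Y).toReal - ((n : ℝ) + 1)) / 6 with hε
  have hε0 : 0 < ε := by rw [hε]; linarith
  obtain ⟨σ, hσ0, hσ1, hσ2, hσ3⟩ := exists_below (dimH D) hDt ε hε0
  obtain ⟨α, hα0, hα1, hα2, -⟩ := exists_below (dimH F) hFt ε hε0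
  obtain ⟨γ, hγ0, hγ1, hγ2, -⟩ := exists_below (dimH Y) hYt ε hε0
  have hσle : σ ≤ 1 := by
    refine hσ3.trans ?_
    have := (ENNReal.toReal_le_toReal hDt ENNReal.one_ne_top).2 hD1
    simpa using this
  refine pinned_step n D F Y hD hF hY σ α γ hσ0 hσle hα0 hγ0 (by linarith)
    (fro_max_real D hD hDn σ hσ0 hσ1) (fro_max F hF hFn α hα0 hα1) (fro_max Y hY hYn γ hγ0 hγ1)

/-- squaring a set of nonnegative numbers does not lower the dimension -/
theorem dimH_le_sq (T : Set ℝ) (hT : ∀ r ∈ T, 0 ≤ r) :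
    dimH T ≤ dimH ((fun r : ℝ => r ^ 2) '' T) := by
  set D := (fun r : ℝ => r ^ 2) '' T with hD
  have hsub : T ⊆ {0} ∪ (fun r : ℝ => √r) '' (D ∩ Ioi 0) := by
    intro r hr
    rcases (hT r hr).eq_or_lt with h | h
    · left; exact h.symm
    · right
      refine ⟨r ^ 2, ⟨⟨r, hr, rfl⟩, by rw [mem_Ioi]; positivity⟩, ?_⟩
      exact Real.sqrt_sq h.le
  have hcd : ContDiffOn ℝ 1 (fun r : ℝ => √r) (Ioi 0) := by
    intro r hr
    exact (Real.contDiffAt_sqrt (ne_of_gt hr)).contDiffWithinAt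
  have h1 : dimH ((fun r : ℝ => √r) '' (D ∩ Ioi 0)) ≤ dimH (D ∩ Ioi 0) :=
    hcd.dimH_image_le (convex_Ioi 0) inter_subset_right
  refine (dimH_mono hsub).trans ?_
  rw [dimH_union, dimH_singleton]
  exact max_le bot_le (h1.trans (dimH_mono inter_subset_left))

theorem vol_pos_of_sq (T S : Set ℝ) (hS : S ⊆ (fun r : ℝ => r ^ 2) '' T) (h : 0 < volume S) :
    0 < volume T := by
  rw [pos_iff_ne_zero] at h ⊢
  intro h0
  apply h
  refine measure_mono_null hS ?_
  refine addHaar_image_eq_zero_of_differentiableOn_of_addHaar_eq_zero volume ?_ h0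
  exact (differentiable_id.pow 2).differentiableOn

end Pool.Agent.TH329.FD
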