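import Pool.Agent.H744R2.Falc.Pin

set_option autoImplicit false

/-! The pinned Fourier bound with different measures for the points and for the pins. -/

namespace Pool.Agent.TH329.FD

open MeasureTheory Set Metric
open Pool.Agent.H744R2.Falc

section pin

variable {V : Type*} [NormedAddCommGroup V] [InnerProductSpace ℝ V]
variable [MeasurableSpace V] [BorelSpace V] [FiniteDimensional ℝ V]
variable (μ : Measure V) [IsProbabilityMeasure μ] (κ : Measure V) [IsProbabilityMeasure κ]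

theorem pin2_main {R C₁ C₂ α β t : ℝ} (hR : ∀ᵐ x ∂μ, ‖x‖ ≤ R) (hR2 : ∀ᵐ x ∂κ, ‖x‖ ≤ R)
    (ht : 1 ≤ |t|)
    (hG : ∀ (lam : ℝ) (z : V), 0 < lam →
      ∫ y, Real.exp (-(lam ^ 2 * dist y z ^ 2)) ∂μ ≤ C₁ * lam ^ (-α))
    (hG2 : ∀ (lam : ℝ) (z : V), 0 < lam →
      ∫ y, Real.exp (-(lam ^ 2 * dist y z ^ 2)) ∂κ ≤ C₂ * lam ^ (-β)) (hC₂ : 0 < C₂) :
    ∫ y, ‖∫ x, Complex.exp (((t * dist x y ^ 2 : ℝ) : ℂ) * Complex.I) ∂μ‖ ^ 2 ∂κ ≤
      (Real.exp (R ^ 2) * C₂ * (Real.exp (R ^ 2 / 2) * (Real.exp (R ^ 2 / 2) *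
        (8 * Real.pi) ^ ((Module.finrank ℝ V : ℝ) / 2) * (C₁ * (Real.sqrt 2) ^ (-α)))) /
        (Real.pi / (1 / 2)) ^ ((Module.finrank ℝ V : ℝ) / 2)) *
          |t| ^ ((Module.finrank ℝ V : ℝ) - α - β) := by
  have ht0 : 0 < |t| := by linarith
  have htne : t ≠ 0 := abs_pos.1 ht0
  set b' : ℝ := 1 / (8 * t ^ 2) with hb'
  have hb'0 : 0 < b' := by positivity
  set A : ℝ := Real.exp (R ^ 2 / 2) with hA
  have hA0 : 0 < A := Real.exp_pos _
  set W : ℝ := (Real.pi / (1 / 2)) ^ ((Module.finrank ℝ V : ℝ) / 2) with hW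
  have hW0 : 0 < W := by positivity
  -- the density
  set f0 : V → ℂ := fun x => Complex.exp (((t * ‖x‖ ^ 2 : ℝ) : ℂ) * Complex.I) *
    ((Real.exp (‖x‖ ^ 2 / 2) : ℝ) : ℂ) with hf0
  set c : V → ℂ := (closedBall (0 : V) R).indicator f0 with hc
  have hf0c : Continuous f0 := by
    rw [hf0]
    fun_prop
  have hcm : Measurable c := hf0c.measurable.indicator isClosed_closedBall.measurableSet
  have hcA : ∀ x, ‖c x‖ ≤ A := by
    intro x
    rw [hc]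
    by_cases hx : x ∈ closedBall (0 : V) R
    · rw [Set.indicator_of_mem hx, hf0]
      simp only
      rw [norm_mul, Complex.norm_exp_ofReal_mul_I, one_mul, Complex.norm_real, Real.norm_eq_abs,
        abs_of_pos (Real.exp_pos _), hA, Real.exp_le_exp]
      rw [mem_closedBall, dist_zero_right] at hx
      have := pow_le_pow_left₀ (norm_nonneg _) hx 2
      linarith
    · rw [Set.indicator_of_notMem hx, norm_zero]
      exact hA0.le
  set Φ := A4b_Phi μ c with hΦ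
  have hΦm : Measurable Φ := A4b_Phi_meas μ hcm
  have hΦn : ∀ ξ, ‖Φ ξ‖ ≤ A := A4b_Phi_norm μ hcA
  -- step 1
  have s1 : ∀ y : V, ‖∫ x, Complex.exp (((t * dist x y ^ 2 : ℝ) : ℂ) * Complex.I) ∂μ‖ =
      ‖∫ x, c x * (A4b_g (1 / (4 * (1 / 2))) x : ℂ) * A4b_e x ((2 * t) • y) ∂μ‖ := by
    intro y
    have h1 : ∫ x, Complex.exp (((t * dist x y ^ 2 : ℝ) : ℂ) * Complex.I) ∂μ =
        ∫ x, Complex.exp (((t * ‖y‖ ^ 2 : ℝ) : ℂ) * Complex.I) *
          (c x * (A4b_g (1 / (4 * (1 / 2))) x : ℂ) * A4b_e x ((2 * t) • y)) ∂μ := by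
      refine integral_congr_ae (hR.mono fun x hx => ?_)
      simp only
      have hx' : x ∈ closedBall (0 : V) R := by
        rw [mem_closedBall, dist_zero_right]; exact hx
      rw [hc, Set.indicator_of_mem hx', hf0]
      simp only
      unfold A4b_g A4b_e
      rw [Complex.ofReal_exp, Complex.ofReal_exp, ← Complex.exp_add, ← Complex.exp_add,
        ← Complex.exp_add, ← Complex.exp_add]
      congr 1
      rw [dist_eq_norm, norm_sub_sq_real, inner_smul_right]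
      push_cast
      ring
    rw [h1, integral_const_mul, norm_mul, Complex.norm_exp_ofReal_mul_I, one_mul]
  -- step 2
  have s2 : ∀ y : V, W * ‖∫ x, Complex.exp (((t * dist x y ^ 2 : ℝ) : ℂ) * Complex.I) ∂μ‖ ^ 2 ≤
      ∫ ξ, A4b_g (1 / 2) (ξ - (2 * t) • y) * ‖Φ ξ‖ ^ 2 := by
    intro y
    rw [s1 y]
    have h1 := A4b_rep μ (b := 1 / 2) (by norm_num) hcm hcA ((2 * t) • y)
    set J := ‖∫ x, c x * (A4b_g (1 / (4 * (1 / 2))) x : ℂ) * A4b_e x ((2 * t) • y) ∂μ‖ with hJ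
    have hgi : Integrable (fun ξ : V => A4b_g (1 / 2) (ξ - (2 * t) • y)) :=
      (A4b_g_int (by norm_num)).comp_sub_right _
    have hgW : ∫ ξ : V, A4b_g (1 / 2) (ξ - (2 * t) • y) = W := by
      rw [integral_sub_right_eq_self (A4b_g (1 / 2) : V → ℝ) ((2 * t) • y), A4b_g_integral (by norm_num)]
    have h2 : W * J ≤ ∫ ξ, A4b_g (1 / 2) (ξ - (2 * t) • y) * ‖Φ ξ‖ := by
      have h3 : W * J = ‖∫ ξ, (A4b_g (1 / 2) (ξ - (2 * t) • y) : ℂ) * Φ ξ‖ := by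
        rw [h1, norm_mul, Complex.norm_real, Real.norm_eq_abs, abs_of_pos hW0]
      rw [h3]
      refine (norm_integral_le_integral_norm _).trans (le_of_eq ?_)
      refine integral_congr_ae (Filter.Eventually.of_forall fun ξ => ?_)
      simp only
      rw [norm_mul, Complex.norm_real, Real.norm_eq_abs, abs_of_pos (A4b_g_pos _ _)]
    have h4 := A4b_jensen (ν := volume) (fun ξ : V => A4b_g (1 / 2) (ξ - (2 * t) • y))
      (fun ξ => ‖Φ ξ‖) hgi (fun v => (A4b_g_pos _ _).le) hΦm.norm A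
      (fun v => by rw [abs_of_nonneg (norm_nonneg _)]; exact hΦn v) (by rw [hgW]; exact hW0)
    rw [hgW] at h4
    have hJ0 : 0 ≤ J := norm_nonneg _
    have h5 : (W * J) ^ 2 ≤ W * ∫ ξ, A4b_g (1 / 2) (ξ - (2 * t) • y) * ‖Φ ξ‖ ^ 2 :=
      (pow_le_pow_left₀ (by positivity) h2 2).trans h4
    have h6 : W * (W * J ^ 2) ≤ W * ∫ ξ, A4b_g (1 / 2) (ξ - (2 * t) • y) * ‖Φ ξ‖ ^ 2 := by
      calc W * (W * J ^ 2) = (W * J) ^ 2 := by ring
        _ ≤ _ := h5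
    exact le_of_mul_le_mul_left h6 hW0
  -- step 3
  set h : V → V → ℝ := fun y ξ => Real.exp (R ^ 2) * A4b_g b' ξ *
      Real.exp (-(|t| ^ 2 * dist y ((1 / (2 * t)) • ξ) ^ 2)) * ‖Φ ξ‖ ^ 2 with hh
  have hh0 : ∀ y ξ, 0 ≤ h y ξ := fun y ξ => by
    rw [hh]
    have := A4b_g_pos b' ξ
    positivity
  have hhm : Measurable (Function.uncurry h) := by
    rw [hh]
    refine Measurable.mul (Measurable.mul ?_ ?_) ?_
    · exact measurable_const.mul ((A4b_g_cont b').measurable.comp measurable_snd)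
    · have : Continuous (fun p : V × V => Real.exp (-(|t| ^ 2 * dist p.1 ((1 / (2 * t)) • p.2) ^ 2))) := by
        fun_prop
      exact this.measurable
    · exact ((hΦm.comp measurable_snd).norm).pow_const 2
  have hhi : Integrable (Function.uncurry h) (κ.prod volume) := by
    refine A4b_prod_int κ hhm.aestronglyMeasurable (A4b_g_int hb'0) (Real.exp (R ^ 2) * A ^ 2)
      (fun p => ?_)
    rw [Function.uncurry, Real.norm_eq_abs, abs_of_nonneg (hh0 _ _), hh]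
    simp only
    have e1 : Real.exp (-(|t| ^ 2 * dist p.1 ((1 / (2 * t)) • p.2) ^ 2)) ≤ 1 := by
      rw [Real.exp_le_one_iff]
      have : 0 ≤ |t| ^ 2 * dist p.1 ((1 / (2 * t)) • p.2) ^ 2 := by positivity
      linarith
    have e2 : ‖Φ p.2‖ ^ 2 ≤ A ^ 2 := pow_le_pow_left₀ (norm_nonneg _) (hΦn _) 2
    have e3 := A4b_g_pos b' p.2
    calc Real.exp (R ^ 2) * A4b_g b' p.2 *
        Real.exp (-(|t| ^ 2 * dist p.1 ((1 / (2 * t)) • p.2) ^ 2)) * ‖Φ p.2‖ ^ 2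
        ≤ Real.exp (R ^ 2) * A4b_g b' p.2 * 1 * A ^ 2 := by gcongr
      _ = _ := by ring
  have s3 : ∫ y, ‖∫ x, Complex.exp (((t * dist x y ^ 2 : ℝ) : ℂ) * Complex.I) ∂μ‖ ^ 2 ∂κ ≤
      W⁻¹ * ∫ y, (∫ ξ, h y ξ) ∂κ := by
    rw [← integral_const_mul]
    refine integral_mono_of_nonneg (Filter.Eventually.of_forall fun y => sq_nonneg _)
      (hhi.integral_prod_left.const_mul _) (hR2.mono fun y hy => ?_)
    simp only
    have e1 : W * ‖∫ x, Complex.exp (((t * dist x y ^ 2 : ℝ) : ℂ) * Complex.I) ∂μ‖ ^ 2 ≤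
        ∫ ξ, h y ξ := by
      refine (s2 y).trans ?_
      have hyi : Integrable (fun ξ => h y ξ) := by
        have : Integrable (fun ξ : V => (Real.exp (R ^ 2) * A ^ 2) * A4b_g b' ξ) :=
          (A4b_g_int hb'0).const_mul _
        refine this.mono' ((hhm.comp (measurable_const.prodMk measurable_id :
          Measurable (fun ξ : V => (y, ξ)))).aestronglyMeasurable)
          (Filter.Eventually.of_forall fun ξ => ?_)
        change ‖h y ξ‖ ≤ _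
        rw [Real.norm_eq_abs, abs_of_nonneg (hh0 _ _), hh]
        simp only
        have e1 : Real.exp (-(|t| ^ 2 * dist y ((1 / (2 * t)) • ξ) ^ 2)) ≤ 1 := by
          rw [Real.exp_le_one_iff]
          have : 0 ≤ |t| ^ 2 * dist y ((1 / (2 * t)) • ξ) ^ 2 := by positivity
          linarith
        have e2 : ‖Φ ξ‖ ^ 2 ≤ A ^ 2 := pow_le_pow_left₀ (norm_nonneg _) (hΦn _) 2
        have e3 := A4b_g_pos b' ξ
        calc Real.exp (R ^ 2) * A4b_g b' ξ *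
            Real.exp (-(|t| ^ 2 * dist y ((1 / (2 * t)) • ξ) ^ 2)) * ‖Φ ξ‖ ^ 2
            ≤ Real.exp (R ^ 2) * A4b_g b' ξ * 1 * A ^ 2 := by gcongr
          _ = _ := by ring
      refine integral_mono_of_nonneg (Filter.Eventually.of_forall fun ξ =>
        mul_nonneg (A4b_g_pos _ _).le (sq_nonneg _)) hyi (Filter.Eventually.of_forall fun ξ => ?_)
      exact mul_le_mul_of_nonneg_right (A4b_pt ξ y R t ht hy) (sq_nonneg _)
    calc ‖∫ x, Complex.exp (((t * dist x y ^ 2 : ℝ) : ℂ) * Complex.I) ∂μ‖ ^ 2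
        = W⁻¹ * (W * ‖∫ x, Complex.exp (((t * dist x y ^ 2 : ℝ) : ℂ) * Complex.I) ∂μ‖ ^ 2) := by
          rw [← mul_assoc, inv_mul_cancel₀ hW0.ne', one_mul]
      _ ≤ _ := mul_le_mul_of_nonneg_left e1 (inv_nonneg.2 hW0.le)
  -- step 4
  have hJi : Integrable (fun ξ : V => A4b_g b' ξ * ‖Φ ξ‖ ^ 2) := by
    refine ((A4b_g_int hb'0).mul_const (A ^ 2)).mono'
      ((A4b_g_cont b').measurable.mul (hΦm.norm.pow_const 2)).aestronglyMeasurable
      (Filter.Eventually.of_forall fun ξ => ?_)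
    rw [Real.norm_eq_abs, abs_of_nonneg (mul_nonneg (A4b_g_pos _ _).le (sq_nonneg _))]
    exact mul_le_mul_of_nonneg_left (pow_le_pow_left₀ (norm_nonneg _) (hΦn _) 2)
      (A4b_g_pos _ _).le
  have s4 : ∫ y, (∫ ξ, h y ξ) ∂κ ≤
      (Real.exp (R ^ 2) * (C₂ * |t| ^ (-β))) * ∫ ξ, A4b_g b' ξ * ‖Φ ξ‖ ^ 2 := by
    have hswap := integral_integral_swap hhi
    rw [hswap, ← integral_const_mul]
    refine integral_mono_of_nonneg (Filter.Eventually.of_forall fun ξ =>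
      integral_nonneg fun y => hh0 y ξ) (hJi.const_mul _) (Filter.Eventually.of_forall fun ξ => ?_)
    simp only
    have e1 : ∫ y, h y ξ ∂κ = (Real.exp (R ^ 2) * (A4b_g b' ξ * ‖Φ ξ‖ ^ 2)) *
        ∫ y, Real.exp (-(|t| ^ 2 * dist y ((1 / (2 * t)) • ξ) ^ 2)) ∂κ := by
      rw [← integral_const_mul]
      refine integral_congr_ae (Filter.Eventually.of_forall fun y => ?_)
      simp only [hh]
      ring
    rw [e1]
    have e2 := hG2 |t| ((1 / (2 * t)) • ξ) ht0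
    have e3 := A4b_g_pos b' ξ
    calc (Real.exp (R ^ 2) * (A4b_g b' ξ * ‖Φ ξ‖ ^ 2)) *
        ∫ y, Real.exp (-(|t| ^ 2 * dist y ((1 / (2 * t)) • ξ) ^ 2)) ∂κ
        ≤ (Real.exp (R ^ 2) * (A4b_g b' ξ * ‖Φ ξ‖ ^ 2)) * (C₂ * |t| ^ (-β)) :=
          mul_le_mul_of_nonneg_left e2 (by positivity)
      _ = _ := by ring
  -- step 5
  have s5 : ∫ ξ, A4b_g b' ξ * ‖Φ ξ‖ ^ 2 ≤ A * (A * ((Real.pi / b') ^
      ((Module.finrank ℝ V : ℝ) / 2)) * (C₁ * (Real.sqrt 2 * |t|) ^ (-α))) := by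
    refine A4b_J μ hb'0 hcm hcA _ (fun x => ?_)
    have e1 := hG (Real.sqrt 2 * |t|) x (by positivity)
    refine le_trans (le_of_eq ?_) e1
    refine integral_congr_ae (Filter.Eventually.of_forall fun x' => ?_)
    simp only [A4b_g]
    congr 2
    rw [dist_comm, dist_eq_norm, mul_pow, Real.sq_sqrt (by norm_num), sq_abs, hb']
    field_simp
    ring
  -- conclusion
  have hconst : (Real.pi / b') ^ ((Module.finrank ℝ V : ℝ) / 2) =
      (8 * Real.pi) ^ ((Module.finrank ℝ V : ℝ) / 2) * |t| ^ (Module.finrank ℝ V : ℝ) := by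
    have e1 : Real.pi / b' = (8 * Real.pi) * |t| ^ (2 : ℝ) := by
      rw [hb', Real.rpow_two, sq_abs]
      field_simp
    rw [e1, Real.mul_rpow (by positivity) (by positivity), ← Real.rpow_mul ht0.le]
    congr 2
    ring
  have hsplit : (Real.sqrt 2 * |t|) ^ (-α) = (Real.sqrt 2) ^ (-α) * |t| ^ (-α) :=
    Real.mul_rpow (by positivity) ht0.le
  have hpow : |t| ^ ((Module.finrank ℝ V : ℝ) - α - β) =
      |t| ^ (Module.finrank ℝ V : ℝ) * |t| ^ (-α) * |t| ^ (-β) := by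
    rw [← Real.rpow_add ht0, ← Real.rpow_add ht0]
    congr 1
  rw [hconst, hsplit] at s5
  have s6 : ∫ y, (∫ ξ, h y ξ) ∂κ ≤ (Real.exp (R ^ 2) * (C₂ * |t| ^ (-β))) *
      (A * (A * ((8 * Real.pi) ^ ((Module.finrank ℝ V : ℝ) / 2) * |t| ^ (Module.finrank ℝ V : ℝ)) *
        (C₁ * ((Real.sqrt 2) ^ (-α) * |t| ^ (-α))))) :=
    s4.trans (mul_le_mul_of_nonneg_left s5 (by positivity))
  refine s3.trans ((mul_le_mul_of_nonneg_left s6 (inv_nonneg.2 hW0.le)).trans (le_of_eq ?_))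
  rw [hpow]
  field_simp


end pin

theorem pinned_fourier2 (n : ℕ) (μ : Measure (EuclideanSpace ℝ (Fin n))) [IsProbabilityMeasure μ]
    (κ : Measure (EuclideanSpace ℝ (Fin n))) [IsProbabilityMeasure κ]
    (R C α C' β : ℝ) (hR : ∀ᵐ x ∂μ, ‖x‖ ≤ R) (hR2 : ∀ᵐ x ∂κ, ‖x‖ ≤ R) (hC : 0 < C) (hα : 0 ≤ α)
    (hμ : ∀ (x : EuclideanSpace ℝ (Fin n)) (r : ℝ), 0 < r →
      μ (closedBall x r) ≤ ENNReal.ofReal (C * r ^ α))
    (hC' : 0 < C') (hβ : 0 ≤ β)
    (hκ : ∀ (x : EuclideanSpace ℝ (Fin n)) (r : ℝ), 0 < r →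
      κ (closedBall x r) ≤ ENNReal.ofReal (C' * r ^ β)) :
    ∃ C' : ℝ, 0 < C' ∧ ∀ t : ℝ, 1 ≤ |t| →
      ∫ y, ‖∫ x, Complex.exp (((t * dist x y ^ 2 : ℝ) : ℂ) * Complex.I) ∂μ‖ ^ 2 ∂κ
        ≤ C' * |t| ^ ((n : ℝ) - α - β) := by
  obtain ⟨C₁, hC₁, hG⟩ := gauss_frostman μ C α hC hα hμ
  obtain ⟨C₂, hC₂, hG2⟩ := gauss_frostman κ C' β hC' hβ hκ
  refine ⟨Real.exp (R ^ 2) * C₂ * (Real.exp (R ^ 2 / 2) * (Real.exp (R ^ 2 / 2) *
        (8 * Real.pi) ^ ((n : ℝ) / 2) * (C₁ * (Real.sqrt 2) ^ (-α)))) /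
        (Real.pi / (1 / 2)) ^ ((n : ℝ) / 2), by positivity, fun t ht => ?_⟩
  have h := pin2_main μ κ hR hR2 ht hG hG2 hC₂
  rw [show (Module.finrank ℝ (EuclideanSpace ℝ (Fin n)) : ℝ) = (n : ℝ) by
    rw [finrank_euclideanSpace_fin]] at h
  exact h

end Pool.Agent.TH329.FD
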