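import Pool.Agent.TH329.FD.Pin2
import Pool.Agent.H744R2.Falc.Final
import Pool.Agent.H744R2.Falc.Vol

set_option autoImplicit false

/-! Pinned version of the volume step, with different sets of points and of pins. -/

namespace Pool.Agent.TH329.FD

open MeasureTheory Set Metric Filter Topology
open Pool.Agent.H744R2.Falc
open scoped ENNReal

/-- `D + Δ^y(F)^2`: all numbers `u + |x - y|^2` with `u ∈ D`, `x ∈ F`. -/
def shiftPin {X : Type*} [MetricSpace X] (D : Set ℝ) (F : Set X) (y : X) : Set ℝ :=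
  {t | ∃ u ∈ D, ∃ x ∈ F, t = u + dist x y ^ 2}

theorem isCompact_shiftPin {X : Type*} [MetricSpace X] {D : Set ℝ} {F : Set X} (hD : IsCompact D)
    (hF : IsCompact F) (y : X) : IsCompact (shiftPin D F y) := by
  have : shiftPin D F y = (fun q : ℝ × X => q.1 + dist q.2 y ^ 2) '' (D ×ˢ F) := by
    ext t
    constructor
    · rintro ⟨u, hu, x, hx, rfl⟩
      exact ⟨(u, x), ⟨hu, hx⟩, rfl⟩
    · rintro ⟨⟨u, x⟩, ⟨hu, hx⟩, rfl⟩
      exact ⟨u, hu, x, hx, rfl⟩
  rw [this]
  exact (hD.prod hF).image (by fun_prop)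

theorem ae_volume_pos_of_collision {Ω Y : Type*} [MeasurableSpace Ω] [MeasurableSpace Y]
    (P : Measure Ω) [IsProbabilityMeasure P] (Q : Measure Y) [IsProbabilityMeasure Q]
    (f : Ω → Y → ℝ) (hf : Measurable (Function.uncurry f)) (D : Y → Set ℝ)
    (hD : ∀ y, IsCompact (D y))
    (hfD : ∀ᵐ y ∂Q, ∀ᵐ ω ∂P, f ω y ∈ D y) (A : ℝ)
    (hA : ∀ δ : ℝ, 0 < δ → δ ≤ 1 →
      ∫⁻ y, (P.prod P) {p | |f p.1 y - f p.2 y| ≤ δ} ∂Q ≤ ENNReal.ofReal (A * δ)) :
    ∀ᵐ y ∂Q, 0 < volume (D y) := by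
  set g : ℕ → Y → ℝ≥0∞ := fun m y => ENNReal.ofReal (2 ^ m) *
    (P.prod P) {p | |f p.1 y - f p.2 y| ≤ (2 : ℝ)⁻¹ ^ m} with hg
  have hgm : ∀ m, Measurable (g m) := by
    intro m
    refine Measurable.const_mul ?_ _
    have hS : MeasurableSet {q : Y × (Ω × Ω) | |f q.2.1 q.1 - f q.2.2 q.1| ≤ (2 : ℝ)⁻¹ ^ m} := by
      have h1 : Measurable fun q : Y × (Ω × Ω) => f q.2.1 q.1 :=
        hf.comp ((measurable_fst.comp measurable_snd).prodMk measurable_fst)
      have h2 : Measurable fun q : Y × (Ω × Ω) => f q.2.2 q.1 :=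
        hf.comp ((measurable_snd.comp measurable_snd).prodMk measurable_fst)
      exact measurableSet_le (h1.sub h2).norm measurable_const
    exact measurable_measure_prodMk_left hS
  have hgi : ∀ m, ∫⁻ y, g m y ∂Q ≤ ENNReal.ofReal A := by
    intro m
    rw [hg]
    simp only
    rw [lintegral_const_mul' _ _ ENNReal.ofReal_ne_top]
    have h0 : (0 : ℝ) < (2 : ℝ)⁻¹ ^ m := by positivity
    refine (mul_le_mul_right (hA _ h0 (pow_le_one₀ (by norm_num) (by norm_num))) _).trans ?_
    rw [← ENNReal.ofReal_mul (by positivity)]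
    apply ENNReal.ofReal_le_ofReal
    have : (2 : ℝ) ^ m * (2 : ℝ)⁻¹ ^ m = 1 := by rw [← mul_pow]; norm_num
    calc (2 : ℝ) ^ m * (A * (2 : ℝ)⁻¹ ^ m) = A * ((2 : ℝ) ^ m * (2 : ℝ)⁻¹ ^ m) := by ring
      _ = A := by rw [this, mul_one]
      _ ≤ A := le_rfl
  have hlim : ∫⁻ y, liminf (fun m => g m y) atTop ∂Q ≤ ENNReal.ofReal A := by
    refine (lintegral_liminf_le hgm).trans ?_
    refine liminf_le_of_le (by isBoundedDefault) ?_
    intro b hb
    obtain ⟨m, hm⟩ := hb.exists
    exact hm.trans (hgi m)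
  have hfin : ∀ᵐ y ∂Q, liminf (fun m => g m y) atTop < ⊤ :=
    ae_lt_top (Measurable.liminf hgm) (ne_top_of_le_ne_top ENNReal.ofReal_ne_top hlim)
  filter_upwards [hfin, hfD] with y hy hyD
  obtain ⟨B, hB1, hB2⟩ := exists_between hy
  have hfreq : ∃ᶠ m in atTop, g m y < B := frequently_lt_of_liminf_lt (by isBoundedDefault) hB1
  by_contra h0
  rw [not_lt, nonpos_iff_eq_zero] at h0
  have ht : Tendsto (fun r => volume (cthickening r (D y)) * B) (𝓝 0)
      (𝓝 (volume (D y) * B)) :=
    ENNReal.Tendsto.mul_const (tendsto_measure_cthickening_of_isCompact (hD y)) (Or.inr hB2.ne)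
  rw [h0, zero_mul] at ht
  have ht2 : Tendsto (fun m : ℕ => (2 : ℝ)⁻¹ ^ m / 2) atTop (𝓝 0) := by
    have := (tendsto_pow_atTop_nhds_zero_of_lt_one (by norm_num : (0 : ℝ) ≤ 2⁻¹)
      (by norm_num)).div_const 2
    simpa using this
  have hev : ∀ᶠ m : ℕ in atTop, volume (cthickening ((2 : ℝ)⁻¹ ^ m / 2) (D y)) * B < 1 :=
    (ht.comp ht2).eventually_lt_const (by norm_num)
  obtain ⟨m, hm1, hm2⟩ := (hfreq.and_eventually hev).exists
  have hδ : (0 : ℝ) < (2 : ℝ)⁻¹ ^ m / 2 := by positivity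
  have hay : Measurable fun ω => f ω y := hf.comp measurable_prodMk_right
  have hkey := VolAux.key P (fun ω => f ω y) hay (cthickening ((2 : ℝ)⁻¹ ^ m / 2) (D y))
    ((2 : ℝ)⁻¹ ^ m / 2) hδ (hyD.mono fun ω hω => by
      rw [← Real.closedBall_eq_Icc]
      exact closedBall_subset_cthickening hω _)
  have e2 : 2 * ((2 : ℝ)⁻¹ ^ m / 2) = (2 : ℝ)⁻¹ ^ m := by ring
  rw [e2] at hkey
  have e3 : ENNReal.ofReal (2 ^ m) * ENNReal.ofReal ((2 : ℝ)⁻¹ ^ m) = 1 := by
    rw [← ENNReal.ofReal_mul (by positivity), ← mul_pow]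
    norm_num
  have h5 : (1 : ℝ≥0∞) ≤ volume (cthickening ((2 : ℝ)⁻¹ ^ m / 2) (D y)) * g m y := by
    calc (1 : ℝ≥0∞) = ENNReal.ofReal (2 ^ m) * ENNReal.ofReal ((2 : ℝ)⁻¹ ^ m) := e3.symm
      _ ≤ ENNReal.ofReal (2 ^ m) * (volume (cthickening ((2 : ℝ)⁻¹ ^ m / 2) (D y)) *
          (P.prod P) {p | |f p.1 y - f p.2 y| ≤ (2 : ℝ)⁻¹ ^ m}) := by gcongr
      _ = volume (cthickening ((2 : ℝ)⁻¹ ^ m / 2) (D y)) * g m y := by rw [hg]; ring
  have h6 : (1 : ℝ≥0∞) ≤ volume (cthickening ((2 : ℝ)⁻¹ ^ m / 2) (D y)) * B :=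
    h5.trans (by gcongr)
  exact absurd h6 (not_le.2 hm2)

theorem pinned_step (n : ℕ) (D : Set ℝ) (F Y : Set (EuclideanSpace ℝ (Fin n))) (hD : IsCompact D)
    (hF : IsCompact F) (hY : IsCompact Y) (σ α γ : ℝ) (hσ : 0 ≤ σ) (hσ1 : σ ≤ 1) (hα : 0 ≤ α)
    (hγ : 0 ≤ γ) (h : (n : ℝ) + 1 < σ + α + γ) (hDF : Fro D σ) (hFF : Fro F α) (hYF : Fro Y γ) :
    ∃ y ∈ Y, 0 < volume (shiftPin D F y) := by
  obtain ⟨ν, hνp, hνD, Cν, hCν, hν⟩ := hDF
  obtain ⟨μ, hμp, hμF, Cμ, hCμ, hμ⟩ := hFF
  obtain ⟨κ, hκp, hκY, Cκ, hCκ, hκ⟩ := hYF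
  obtain ⟨R, hR⟩ := (hF.union hY).isBounded.subset_closedBall 0
  have hRae : ∀ᵐ x ∂μ, ‖x‖ ≤ R := by
    have : ∀ᵐ x ∂μ, x ∈ F := by rw [ae_iff]; exact hμF
    filter_upwards [this] with x hx
    simpa using hR (Or.inl hx)
  have hRae2 : ∀ᵐ x ∂κ, ‖x‖ ≤ R := by
    have : ∀ᵐ x ∂κ, x ∈ Y := by rw [ae_iff]; exact hκY
    filter_upwards [this] with x hx
    simpa using hR (Or.inr hx)
  obtain ⟨C', hC', hH⟩ := pinned_fourier2 n μ κ R Cμ α Cκ γ hRae hRae2 hCμ hα hμ hCκ hγ hκ
  set β : ℝ := α + γ - n with hβ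
  have hE := fourier_energy ν Cν σ β hCν hσ hσ1 hν (by rw [hβ]; linarith)
  set EE : ENNReal := ∫⁻ t in {t : ℝ | 1 ≤ |t|},
      ENNReal.ofReal (‖∫ u, Complex.exp (((t * u : ℝ) : ℂ) * Complex.I) ∂ν‖ ^ 2 * |t| ^ (-β)) with hEE
  -- apply the volume lemma
  set f : ℝ × EuclideanSpace ℝ (Fin n) → EuclideanSpace ℝ (Fin n) → ℝ :=
    fun ω y => ω.1 + dist ω.2 y ^ 2 with hf
  have hpi : (0 : ℝ) < Real.sqrt Real.pi := Real.sqrt_pos.2 Real.pi_pos
  set B : ENNReal := ENNReal.ofReal (Real.exp (1 / 4) / Real.sqrt Real.pi) *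
    (2 + ENNReal.ofReal C' * EE) with hB
  have hBtop : B ≠ ⊤ := by
    rw [hB]
    refine ENNReal.mul_ne_top ENNReal.ofReal_ne_top ?_
    refine ENNReal.add_ne_top.2 ⟨by simp, ENNReal.mul_ne_top ENNReal.ofReal_ne_top hE.ne⟩
  have hconc : (∀ᵐ y ∂κ, 0 < volume (shiftPin D F y)) →
      ∃ y ∈ Y, 0 < volume (shiftPin D F y) := by
    intro hae
    have h1 : ∀ᵐ y ∂κ, y ∈ Y := by rw [ae_iff]; exact hκY
    obtain ⟨y, hy1, hy2⟩ := (hae.and h1).exists
    exact ⟨y, hy2, hy1⟩
  refine hconc (ae_volume_pos_of_collision (ν.prod μ) κ f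
    (by unfold Function.uncurry; rw [hf]; fun_prop) _ (isCompact_shiftPin hD hF) ?_ B.toReal ?_)
  · have h1 : ∀ᵐ x ∂μ, x ∈ F := by rw [ae_iff]; exact hμF
    have h2 : ∀ᵐ x ∂ν, x ∈ D := by rw [ae_iff]; exact hνD
    refine Filter.Eventually.of_forall fun y => ?_
    have h3 : ∀ᵐ ω ∂(ν.prod μ), ω.1 ∈ D ∧ ω.2 ∈ F := by
      have a1 : ∀ᵐ ω ∂(ν.prod μ), ω.1 ∈ D := Measure.quasiMeasurePreserving_fst.ae h2
      have a2 : ∀ᵐ ω ∂(ν.prod μ), ω.2 ∈ F := Measure.quasiMeasurePreserving_snd.ae h1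
      filter_upwards [a1, a2] with ω b1 b2 using ⟨b1, b2⟩
    filter_upwards [h3] with ω hω
    exact ⟨ω.1, hω.1, ω.2, hω.2, rfl⟩
  · intro δ hδ hδ1
    -- the characteristic function factorises
    set N : ℝ → ℝ := fun t => ‖∫ u, Complex.exp (((t * u : ℝ) : ℂ) * Complex.I) ∂ν‖ ^ 2 with hN
    set Ht : ℝ → EuclideanSpace ℝ (Fin n) → ℝ := fun t y =>
      ‖∫ x, Complex.exp (((t * dist x y ^ 2 : ℝ) : ℂ) * Complex.I) ∂μ‖ ^ 2 with hHt
    have hfac : ∀ (t : ℝ) (y : EuclideanSpace ℝ (Fin n)),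
        ‖∫ ω, Complex.exp (((t * f ω y : ℝ) : ℂ) * Complex.I) ∂(ν.prod μ)‖ ^ 2 = N t * Ht t y := by
      intro t y
      have e1 : ∫ ω, Complex.exp (((t * f ω y : ℝ) : ℂ) * Complex.I) ∂(ν.prod μ) =
          (∫ u, Complex.exp (((t * u : ℝ) : ℂ) * Complex.I) ∂ν) *
            ∫ x, Complex.exp (((t * dist x y ^ 2 : ℝ) : ℂ) * Complex.I) ∂μ := by
        rw [← integral_prod_mul]
        congr 1
        funext ω
        rw [← Complex.exp_add, hf]
        congr 1
        push_cast
        ring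
      rw [e1, norm_mul, mul_pow]
    have hNm : Measurable N := by
      have : Measurable fun t : ℝ => ∫ u, Complex.exp (((t * u : ℝ) : ℂ) * Complex.I) ∂ν := by
        refine StronglyMeasurable.measurable ?_
        refine StronglyMeasurable.integral_prod_right (f := fun (t : ℝ) (u : ℝ) =>
          Complex.exp (((t * u : ℝ) : ℂ) * Complex.I)) ?_
        refine Measurable.stronglyMeasurable ?_
        unfold Function.uncurry
        fun_prop
      exact this.norm.pow_const 2
    have hHm : Measurable (fun q : EuclideanSpace ℝ (Fin n) × ℝ => Ht q.2 q.1) := by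
      have : Measurable fun q : EuclideanSpace ℝ (Fin n) × ℝ =>
          ∫ x, Complex.exp (((q.2 * dist x q.1 ^ 2 : ℝ) : ℂ) * Complex.I) ∂μ := by
        refine StronglyMeasurable.measurable ?_
        refine StronglyMeasurable.integral_prod_right
          (f := fun (q : EuclideanSpace ℝ (Fin n) × ℝ) (x : EuclideanSpace ℝ (Fin n)) =>
          Complex.exp (((q.2 * dist x q.1 ^ 2 : ℝ) : ℂ) * Complex.I)) ?_
        refine Measurable.stronglyMeasurable ?_
        unfold Function.uncurry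
        fun_prop
      exact this.norm.pow_const 2
    have hN1 : ∀ t, N t ≤ 1 := by
      intro t
      have := norm_integral_le_of_norm_le_const (μ := ν) (C := 1)
        (f := fun u : ℝ => Complex.exp (((t * u : ℝ) : ℂ) * Complex.I))
        (ae_of_all _ fun ω => by rw [Complex.norm_exp_ofReal_mul_I])
      exact pow_le_one₀ (norm_nonneg _) (by simpa using this)
    have hH1 : ∀ t y, Ht t y ≤ 1 := by
      intro t y
      have := norm_integral_le_of_norm_le_const (μ := μ) (C := 1)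
        (f := fun x : EuclideanSpace ℝ (Fin n) => Complex.exp (((t * dist x y ^ 2 : ℝ) : ℂ) * Complex.I))
        (ae_of_all _ fun ω => by rw [Complex.norm_exp_ofReal_mul_I])
      exact pow_le_one₀ (norm_nonneg _) (by simpa using this)
    have hN0 : ∀ t, 0 ≤ N t := fun t => by rw [hN]; positivity
    have hH0 : ∀ t y, 0 ≤ Ht t y := fun t y => by rw [hHt]; positivity
    calc ∫⁻ y, ((ν.prod μ).prod (ν.prod μ)) {p | |f p.1 y - f p.2 y| ≤ δ} ∂κ
        ≤ ∫⁻ y, (ENNReal.ofReal (Real.exp (1 / 4) * (δ / Real.sqrt Real.pi)) *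
            (∫⁻ t : ℝ, ENNReal.ofReal (N t * Ht t y * Real.exp (-(δ ^ 2 * t ^ 2))))) ∂κ := by
          refine lintegral_mono fun y => ?_
          have := collision_gauss (ν.prod μ) (fun ω => f ω y) (by rw [hf]; fun_prop) δ hδ
          simp_rw [hfac] at this
          exact this
      _ = ENNReal.ofReal (Real.exp (1 / 4) * (δ / Real.sqrt Real.pi)) *
            ∫⁻ t : ℝ, ∫⁻ y, ENNReal.ofReal (N t * Ht t y * Real.exp (-(δ ^ 2 * t ^ 2))) ∂κ := by
          rw [lintegral_const_mul' _ _ ENNReal.ofReal_ne_top, lintegral_lintegral_swap]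
          refine Measurable.aemeasurable ?_
          unfold Function.uncurry
          refine Measurable.ennreal_ofReal ?_
          refine Measurable.mul (Measurable.mul (hNm.comp measurable_snd) hHm) (by fun_prop)
      _ ≤ ENNReal.ofReal (Real.exp (1 / 4) * (δ / Real.sqrt Real.pi)) *
            (2 + ENNReal.ofReal C' * EE) := by
          gcongr
          have hbd : ∀ t, ∫⁻ y, ENNReal.ofReal (N t * Ht t y * Real.exp (-(δ ^ 2 * t ^ 2))) ∂κ ≤
              ENNReal.ofReal (N t) * ENNReal.ofReal (∫ y, Ht t y ∂κ) := by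
            intro t
            rw [ofReal_integral_eq_lintegral_ofReal, ← lintegral_const_mul' _ _ ENNReal.ofReal_ne_top]
            · refine lintegral_mono fun y => ?_
              rw [← ENNReal.ofReal_mul (hN0 t)]
              refine ENNReal.ofReal_le_ofReal ?_
              have : Real.exp (-(δ ^ 2 * t ^ 2)) ≤ 1 := Real.exp_le_one_iff.2 (by
                have : 0 ≤ δ ^ 2 * t ^ 2 := by positivity
                linarith)
              have h0 := mul_nonneg (hN0 t) (hH0 t y)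
              nlinarith
            · refine Integrable.of_bound ?_ 1 ?_
              · exact (hHm.comp (measurable_id.prodMk measurable_const)).aestronglyMeasurable
              · filter_upwards with y
                rw [Real.norm_eq_abs, abs_of_nonneg (hH0 t y)]
                exact hH1 t y
            · filter_upwards with y using hH0 t y
          have hms : MeasurableSet {t : ℝ | 1 ≤ |t|} :=
            measurableSet_le measurable_const (by fun_prop)
          calc ∫⁻ t : ℝ, ∫⁻ y, ENNReal.ofReal (N t * Ht t y * Real.exp (-(δ ^ 2 * t ^ 2))) ∂κ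
              ≤ ∫⁻ t : ℝ, ENNReal.ofReal (N t) * ENNReal.ofReal (∫ y, Ht t y ∂κ) :=
                lintegral_mono hbd
            _ = (∫⁻ t in {t : ℝ | 1 ≤ |t|}, ENNReal.ofReal (N t) * ENNReal.ofReal (∫ y, Ht t y ∂κ)) +
                ∫⁻ t in {t : ℝ | 1 ≤ |t|}ᶜ, ENNReal.ofReal (N t) * ENNReal.ofReal (∫ y, Ht t y ∂κ) :=
                (lintegral_add_compl _ hms).symm
            _ ≤ ENNReal.ofReal C' * EE + 2 := by
                gcongr
                · rw [hEE, ← lintegral_const_mul' _ _ ENNReal.ofReal_ne_top]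
                  refine setLIntegral_mono' hms fun t ht => ?_
                  rw [← ENNReal.ofReal_mul (hN0 t), ← ENNReal.ofReal_mul hC'.le]
                  refine ENNReal.ofReal_le_ofReal ?_
                  have h5 := hH t ht
                  have e3 : (n : ℝ) - α - γ = -β := by rw [hβ]; ring
                  rw [e3] at h5
                  calc N t * ∫ y, Ht t y ∂κ ≤ N t * (C' * |t| ^ (-β)) :=
                        mul_le_mul_of_nonneg_left h5 (hN0 t)
                    _ = C' * (N t * |t| ^ (-β)) := by ring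
                · calc ∫⁻ t in {t : ℝ | 1 ≤ |t|}ᶜ, ENNReal.ofReal (N t) * ENNReal.ofReal (∫ y, Ht t y ∂κ)
                      ≤ ∫⁻ t in {t : ℝ | 1 ≤ |t|}ᶜ, 1 := by
                        refine lintegral_mono fun t => ?_
                        have h6 : ∫ y, Ht t y ∂κ ≤ 1 := by
                          have : ∫ y, Ht t y ∂κ ≤ ∫ y, (1 : ℝ) ∂κ := by
                            refine integral_mono ?_ (integrable_const _) (fun y => hH1 t y)
                            refine Integrable.of_bound ?_ 1 ?_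
                            · exact (hHm.comp (measurable_id.prodMk measurable_const)).aestronglyMeasurable
                            · filter_upwards with y
                              rw [Real.norm_eq_abs, abs_of_nonneg (hH0 t y)]
                              exact hH1 t y
                          simpa using this
                        calc _ ≤ ENNReal.ofReal 1 * ENNReal.ofReal 1 := by
                              gcongr
                              · exact hN1 t
                          _ = 1 := by simp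
                    _ = volume ({t : ℝ | 1 ≤ |t|}ᶜ) := by simp
                    _ ≤ volume (Ioo (-1 : ℝ) 1) := by
                        refine measure_mono ?_
                        intro t ht
                        simp only [mem_compl_iff, mem_ofPred_eq, not_le] at ht
                        exact abs_lt.1 ht
                    _ = 2 := by
                        rw [Real.volume_Ioo]; norm_num
            _ = 2 + ENNReal.ofReal C' * EE := by rw [add_comm]
      _ = ENNReal.ofReal (B.toReal * δ) := by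
          rw [ENNReal.ofReal_mul ENNReal.toReal_nonneg, ENNReal.ofReal_toReal hBtop, hB]
          rw [show Real.exp (1 / 4) * (δ / Real.sqrt Real.pi) =
            Real.exp (1 / 4) / Real.sqrt Real.pi * δ by ring, ENNReal.ofReal_mul (by positivity)]
          ring

end Pool.Agent.TH329.FD
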